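import Pool.Agent.J6H71.MuS.StmB

/-!
# Iwasawa: `μ = 0` goes up in Galois extensions of degree a power of `p`
-/

set_option autoImplicit false

namespace Pool.Agent.J6H52.MuS

open IntermediateField Module Pool.Agent.Q60.MU Pool.Agent.W5h77.MB Pool.Agent.W5h33.DF
  Pool.Agent.J6H14.DMu Pool.Agent.J6H71.MuS NumberField
open scoped Pointwise ComplexConjugate

/-- A simple module of a finite `p`-group is trivial. -/
theorem coinv_ne_top {p : ℕ} [hp : Fact p.Prime] {D : Type} [Group D] {K : Subgroup D}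
    (hK : K.Normal) {a : ℕ} (hidx : K.index = p ^ a) {S : Type} [AddCommGroup S]
    [Module (ZMod p) S] [Module.Finite (ZMod p) S] (σ : Representation (ZMod p) D S)
    (htriv : ∀ g ∈ K, ∀ x, σ g x = x) (hs : IsSimple σ) (H : Subgroup D) : coinv σ H ≠ ⊤ := by
  have hnt : Nontrivial S := hs.1
  obtain ⟨v, hv, P, hP, hPp⟩ := exists_vec_P hK
    (by rw [hidx]; exact pow_ne_zero _ hp.out.ne_zero) σ htriv
  have h1 : K ≤ stab σ v := fun g hg => htriv g hg v
  have h2 : (stab σ v).index = 1 := by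
    have h3 : (stab σ v).index ∣ p ^ a := by
      rw [← hidx]
      exact Subgroup.index_dvd_of_le h1
    obtain ⟨b, -, hb⟩ := (Nat.dvd_prime_pow hp.out).1 h3
    cases b with
    | zero => rw [hb, pow_zero]
    | succ b =>
      exfalso
      apply hPp
      refine dvd_trans ?_ (Subgroup.index_dvd_of_le hP)
      rw [hb, pow_succ]
      exact Dvd.intro_left _ rfl
  have h3 : stab σ v = ⊤ := Subgroup.index_eq_one.1 h2
  let U : Submodule (ZMod p) S :=
    { carrier := {x | ∀ g, σ g x = x}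
      add_mem' := by
        intro x y hx hy g
        rw [map_add, hx g, hy g]
      zero_mem' := fun g => map_zero _
      smul_mem' := by
        intro c x hx g
        rw [map_smul, hx g] }
  have hvU : v ∈ U := by
    intro g
    have h4 : g ∈ stab σ v := by
      rw [h3]
      exact Subgroup.mem_top _
    exact h4
  have hU : U = ⊤ := by
    refine (hs.2 U ?_).resolve_left ?_
    · intro g x hx
      rw [hx g]
      exact hx
    · intro h
      rw [h, Submodule.mem_bot] at hvU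
      exact hv hvU
  intro h
  have h4 : coinv σ H ≤ ⊥ := by
    refine Submodule.span_le.2 ?_
    rintro x ⟨g, -, w, rfl⟩
    have h5 : w ∈ U := by
      rw [hU]
      exact Submodule.mem_top
    rw [h5 g, sub_self]
    exact Submodule.zero_mem _
  rw [h, top_le_iff] at h4
  exact bot_ne_top h4

/-- The orbits of the primes above a finite set of prime numbers. -/
theorem orbits {p : ℕ} (hp : p.Prime) (hone : OnePrimeT) (hfin : FinDecT)
    (F : IntermediateField ℚ Qb) [FiniteDimensional ℚ F] (P : Finset ℕ) (hP : ∀ ℓ ∈ P, ℓ.Prime) :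
    ∃ t : ℕ, ∀ N : ℕ, ∃ T : Finset (ValuationSubring Qb), T.card ≤ t ∧
      ∀ A : ValuationSubring Qb, (∃ ℓ ∈ P, (ℓ : Qb) ∈ A.nonunits) →
        ∃ B ∈ T, ∃ g ∈ F.fixingSubgroup ⊓ (cyc p N).fixingSubgroup, A = g • B := by
  classical
  -- one prime number, over `cyc p N`
  have h1 : ∀ ℓ : ℕ, ℓ.Prime → ∃ t : ℕ, ∀ N : ℕ, ∃ T : Finset (ValuationSubring Qb), T.card ≤ t ∧
      ∀ A : ValuationSubring Qb, (ℓ : Qb) ∈ A.nonunits →
        ∃ B ∈ T, ∃ σ ∈ (cyc p N).fixingSubgroup, A = σ • B := by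
    intro ℓ hℓ
    by_cases hℓp : ℓ = p
    · subst hℓp
      refine ⟨1, fun N => ?_⟩
      obtain ⟨B, hB⟩ := exists_above hℓ
      refine ⟨{B}, by rw [Finset.card_singleton], fun A hA => ⟨B, Finset.mem_singleton_self B, ?_⟩⟩
      have hfd : FiniteDimensional ℚ (cyc ℓ N) := by
        have hpn : NeZero (ℓ ^ N) := ⟨(pow_pos hℓ.pos N).ne'⟩
        obtain ⟨ζ, hζ⟩ := HasEnoughRootsOfUnity.exists_primitiveRoot Qb (ℓ ^ N)
        have hE : adjoin ℚ {z : Qb | z ^ ℓ ^ N = 1} = ℚ⟮ζ⟯ := by
          apply le_antisymm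
          · rw [adjoin_le_iff]
            intro z hz
            obtain ⟨i, -, rfl⟩ := hζ.eq_pow_of_pow_eq_one hz
            exact pow_mem (mem_adjoin_simple_self ℚ ζ) i
          · rw [adjoin_le_iff]
            rintro _ rfl
            exact subset_adjoin ℚ _ hζ.pow_eq_one
        unfold cyc
        rw [hE]
        exact adjoin.finiteDimensional (Algebra.IsIntegral.isIntegral ζ)
      exact conj_of_one hℓ (cyc ℓ N) (hone ℓ hℓ N) hA hB
    · exact hfin p ℓ hp hℓ hℓp
  choose! t ht using h1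
  refine ⟨F.fixingSubgroup.index * ∑ ℓ ∈ P, t ℓ, fun N => ?_⟩
  choose! T hTt hT using fun ℓ (hℓ : ℓ.Prime) => ht ℓ hℓ N
  have hind : (F.fixingSubgroup ⊓ (cyc p N).fixingSubgroup).relIndex (cyc p N).fixingSubgroup =
      F.fixingSubgroup.relIndex (cyc p N).fixingSubgroup := Subgroup.inf_relIndex_right _ _
  have hle : F.fixingSubgroup.relIndex (cyc p N).fixingSubgroup ≤ F.fixingSubgroup.index := by
    rw [← Subgroup.relIndex_top_right]
    refine Subgroup.relIndex_le_of_le_right le_top ?_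
    rw [Subgroup.relIndex_top_right]
    exact index_ne_zero' F
  have hne : F.fixingSubgroup.relIndex (cyc p N).fixingSubgroup ≠ 0 := by
    intro h
    have h2 := Subgroup.relIndex_eq_zero_of_le_right (le_top : (cyc p N).fixingSubgroup ≤ ⊤) h
    rw [Subgroup.relIndex_top_right] at h2
    exact index_ne_zero' F h2
  obtain ⟨T', hT'c, hT'⟩ := exists_TL (𝔾 := Gal(Qb/ℚ)) (Ω := ValuationSubring Qb)
    (D := (cyc p N).fixingSubgroup) (L := F.fixingSubgroup ⊓ (cyc p N).fixingSubgroup)
    (by rw [hind]; exact hne) (P.biUnion T)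
  refine ⟨T', hT'c.trans ?_, ?_⟩
  · rw [hind]
    refine Nat.mul_le_mul hle ?_
    exact Finset.card_biUnion_le.trans (Finset.sum_le_sum fun ℓ hℓ => hTt ℓ (hP ℓ hℓ))
  · rintro A ⟨ℓ, hℓ, hA⟩
    obtain ⟨B, hB, σ, hσ, rfl⟩ := hT ℓ (hP ℓ hℓ) A hA
    exact hT' B (Finset.mem_biUnion.2 ⟨ℓ, hℓ, hB⟩) σ hσ

/-- The elements of the stabiliser of an infinite place. -/
theorem stab_place {w : InfinitePlace Qb} {σ : Gal(Qb/ℚ)}
    (hσ : σ ∈ MulAction.stabilizer Gal(Qb/ℚ) w) :
    σ = 1 ∨ ∀ x, conj (w.embedding (σ x)) = w.embedding x := by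
  rw [MulAction.mem_stabilizer_iff] at hσ
  have h1 : InfinitePlace.mk (w.embedding.comp (σ.symm : Qb →+* Qb)) = InfinitePlace.mk w.embedding := by
    have h2 : σ • InfinitePlace.mk w.embedding = InfinitePlace.mk w.embedding := by
      rw [InfinitePlace.mk_embedding, hσ]
    exact h2
  rw [InfinitePlace.mk_eq_iff] at h1
  rcases h1 with h | h
  · left
    have h2 : ∀ x, σ.symm x = x := fun x => w.embedding.injective (RingHom.congr_fun h x)
    ext x
    have h3 := h2 (σ x)
    rw [AlgEquiv.symm_apply_apply] at h3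
    exact h3.symm
  · right
    intro x
    have h4 : conj (w.embedding (σ.symm (σ x))) = w.embedding (σ x) := RingHom.congr_fun h (σ x)
    rw [AlgEquiv.symm_apply_apply] at h4
    rw [← h4, Complex.conj_conj]

/-- **Iwasawa's theorem.** -/
theorem iwasawa : IwasawaT := by
  classical
  intro hone hfin p hpf s F K hKfd hFK hnorm hex hinf hmu
  obtain ⟨n, hn⟩ := hex
  obtain ⟨C, hC⟩ := hmu
  have hp : p.Prime := hpf.out
  have hFfd : FiniteDimensional ℚ F := fd_of_le hFK
  have hKF : K.fixingSubgroup ≤ F.fixingSubgroup := fixingSubgroup_le hFK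
  have hrel : K.fixingSubgroup.relIndex F.fixingSubgroup = p ^ n := (relIndex_fix hFK).trans hn
  have hconj : ∀ d ∈ F.fixingSubgroup, ∀ x ∈ K.fixingSubgroup, d * x * d⁻¹ ∈ K.fixingSubgroup := by
    intro d hd x hx
    rw [IntermediateField.mem_fixingSubgroup_iff] at hx ⊢
    intro y hy
    have h1 : d⁻¹ y ∈ K := hnorm _ (inv_mem hd) y hy
    show d (x (d⁻¹ y)) = y
    rw [hx _ h1]
    show (d * d⁻¹) y = y
    rw [mul_inv_cancel]
    rfl
  have hnor : (K.fixingSubgroup.subgroupOf F.fixingSubgroup).Normal :=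
    ⟨fun x hx d => hconj d d.2 x hx⟩
  -- places
  obtain ⟨c, hc0, hc⟩ := exists_bad K
  obtain ⟨t, ht⟩ := orbits hp hone hfin F (insert p c.primeFactors) (by
    intro ℓ hℓ
    rcases Finset.mem_insert.1 hℓ with rfl | h
    · exact hp
    · exact Nat.prime_of_mem_primeFactors h)
  refine ⟨(cst (p ^ n) (p ^ n * t) * C) ^ (p ^ n * 1), fun m R hR => ?_⟩
  have hfR := layer_fd hp hR.1
  have hRn := layer_normal hp hR.1
  obtain ⟨N, hN⟩ := hR.1.2
  have hN' : (cyc p N).fixingSubgroup ≤ R.fixingSubgroup := fixingSubgroup_le hN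
  have hCm := hC m R hR
  rw [← rkLe_iff] at hCm ⊢
  have hKD : (K ⊔ R).fixingSubgroup ≤ (F ⊔ R).fixingSubgroup :=
    fixingSubgroup_le (sup_le_sup_right hFK R)
  have hKinf : (K ⊔ R).fixingSubgroup = K.fixingSubgroup ⊓ R.fixingSubgroup := fixingSubgroup_sup
  have hDinf : (F ⊔ R).fixingSubgroup = F.fixingSubgroup ⊓ R.fixingSubgroup := fixingSubgroup_sup
  have hrelD : (K ⊔ R).fixingSubgroup.relIndex (F ⊔ R).fixingSubgroup =
      K.fixingSubgroup.relIndex (F ⊔ R).fixingSubgroup := by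
    rw [← Subgroup.inf_relIndex_right, ← Subgroup.inf_relIndex_right K.fixingSubgroup]
    congr 1
    rw [hKinf, hDinf]
    ext x
    simp only [Subgroup.mem_inf]
    tauto
  have hDF : (F ⊔ R).fixingSubgroup ≤ F.fixingSubgroup := fixingSubgroup_le le_sup_left
  have hdvd : (K ⊔ R).fixingSubgroup.relIndex (F ⊔ R).fixingSubgroup ∣ p ^ n := by
    rw [hrelD, ← hrel, ← Subgroup.relIndex_subgroupOf hDF]
    exact Subgroup.relIndex_dvd_index_of_normal _ _
  obtain ⟨a, -, ha⟩ := (Nat.dvd_prime_pow hp).1 hdvd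
  have hne : (K ⊔ R).fixingSubgroup.relIndex (F ⊔ R).fixingSubgroup ≠ 0 := by
    rw [ha]
    exact pow_ne_zero _ hp.ne_zero
  have hle : (K ⊔ R).fixingSubgroup.relIndex (F ⊔ R).fixingSubgroup ≤ p ^ n :=
    Nat.le_of_dvd (pow_pos hp.pos n) hdvd
  have hKn : ∀ d ∈ (F ⊔ R).fixingSubgroup, ∀ x ∈ (K ⊔ R).fixingSubgroup,
      d * x * d⁻¹ ∈ (K ⊔ R).fixingSubgroup := by
    intro d hd x hx
    rw [hKinf] at hx ⊢
    rw [hDinf] at hd
    exact ⟨hconj d hd.1 x hx.1, hRn.conj_mem x hx.2 d⟩
  have hnor' : ((K ⊔ R).fixingSubgroup.subgroupOf (F ⊔ R).fixingSubgroup).Normal :=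
    ⟨fun x hx d => hKn d d.2 x hx⟩
  obtain ⟨T, hTt, hT⟩ := ht N
  refine (main_ineq (p := p) (Ω := ValuationSubring Qb ⊕ InfinitePlace Qb) (I := loc p s)
    (fun g w => loc_conj p s g w) hKD hKn (n := p ^ n) (t := t) hne hle
    {(F ⊔ R).fixingSubgroup} ?_ ?_ (T.image Sum.inl) ?_ ?_ (C := C) ?_).mono ?_
  · intro L hL
    rw [Finset.mem_singleton] at hL
    rw [hL]
    exact ⟨hKD, le_rfl⟩
  · intro S _ _ _ σ htriv hs
    exact ⟨_, Finset.mem_singleton_self _, coinv_ne_top hnor' ha σ htriv hs _⟩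
  · exact Finset.card_image_le.trans hTt
  · rintro (A | w)
    · by_cases h : loc p s (Sum.inl A) ⊓ (F ⊔ R).fixingSubgroup ≤ (K ⊔ R).fixingSubgroup
      · exact Or.inl h
      · right
        obtain ⟨σ, ⟨hσ1, hσ2⟩, hσ3⟩ := SetLike.not_le_iff_exists.1 h
        have hσK : σ ∉ K.fixingSubgroup := by
          intro h2
          apply hσ3
          rw [hKinf]
          rw [SetLike.mem_coe, hDinf] at hσ2
          exact ⟨h2, hσ2.2⟩
        have hℓ : ∃ ℓ ∈ insert p c.primeFactors, (ℓ : Qb) ∈ A.nonunits := by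
          have h1 : σ ∈ locFin p s A := hσ1
          unfold locFin at h1
          split_ifs at h1 with h2
          · exact ⟨p, Finset.mem_insert_self _ _, h2.2⟩
          · obtain ⟨ℓ, hℓ, hℓA⟩ := exists_prime hc0 (hc A σ h1 hσK)
            exact ⟨ℓ, Finset.mem_insert_of_mem hℓ, hℓA⟩
        obtain ⟨B, hB, g, hg, hAB⟩ := hT A hℓ
        refine ⟨Sum.inl B, Finset.mem_image_of_mem _ hB, g, ?_, ?_⟩
        · rw [hDinf]
          exact ⟨hg.1, hN' hg.2⟩
        · rw [hAB]
          rfl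
    · left
      rintro σ ⟨hσ1, hσ2⟩
      rw [SetLike.mem_coe, hDinf] at hσ2
      rw [hKinf]
      refine ⟨?_, hσ2.2⟩
      have hσw : σ ∈ MulAction.stabilizer Gal(Qb/ℚ) w := hσ1
      rcases stab_place hσw with h1 | h1
      · rw [h1]
        exact one_mem _
      · rcases hinf with hp2 | hreal
        · -- `σ ^ 2 = 1`
          have hsq : σ * σ = 1 := by
            ext x
            apply w.embedding.injective
            have h2 := h1 (σ x)
            have h3 := h1 x
            show w.embedding (σ (σ x)) = w.embedding x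
            rw [← h3, ← h2, Complex.conj_conj]
          have hpow : σ ^ (p ^ n) ∈ K.fixingSubgroup := by
            have h2 := Subgroup.pow_index_mem (K.fixingSubgroup.subgroupOf F.fixingSubgroup)
              ⟨σ, hσ2.1⟩
            have h3 : (K.fixingSubgroup.subgroupOf F.fixingSubgroup).index = p ^ n := hrel
            rw [h3] at h2
            exact h2
          obtain ⟨b, hb⟩ : Odd (p ^ n) := (hp.odd_of_ne_two hp2).pow
          rw [hb, pow_succ, pow_mul, pow_two, hsq, one_pow, one_mul] at hpow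
          exact hpow
        · exfalso
          obtain ⟨x, hx, hxne⟩ := hreal w.embedding
          apply hxne
          have h2 : σ x = x := (IntermediateField.mem_fixingSubgroup_iff _ _).1 hσ2.1 x hx
          have h3 := h1 x
          rwa [h2] at h3
  · intro L hL
    rw [Finset.mem_singleton] at hL
    rw [hL]
    exact hCm
  · rw [Finset.card_singleton]

end Pool.Agent.J6H52.MuS
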